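import Pool.Agent.MP_5f72fe_nt.H3.SpecC

/-! The bound for the integral of the majorant against a cusp form. -/

namespace Pool.Agent.MP_5f72fe_nt.H58

open Complex Filter Topology MeasureTheory Set
open scoped Real MatrixGroups UpperHalfPlane
open Pool.Agent.MP_5f72fe_nt.H3

noncomputable section

/-- the Poisson kernel -/
def gk (y u : ℝ) : ℝ := (u ^ 2 + y ^ 2)⁻¹

lemma gk_nonneg (y u : ℝ) : 0 ≤ gk y u := by unfold gk; positivity

lemma gk_eq {y : ℝ} (hy : 0 < y) (u : ℝ) : gk y u = (y ^ 2)⁻¹ * (1 + (u / y) ^ 2)⁻¹ := by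
  unfold gk
  rw [← mul_inv]
  congr 1
  field_simp
  ring

lemma gk_integrable {y : ℝ} (hy : 0 < y) : Integrable (gk y) := by
  have h : gk y = fun u => (y ^ 2)⁻¹ * (fun v : ℝ => (1 + v ^ 2)⁻¹) (u / y) := by
    funext u; exact gk_eq hy u
  rw [h]
  exact (integrable_inv_one_add_sq.comp_div hy.ne').const_mul _

lemma gk_integral {y : ℝ} (hy : 0 < y) : ∫ u, gk y u = π / y := by
  have h : gk y = fun u => (y ^ 2)⁻¹ * (fun v : ℝ => (1 + v ^ 2)⁻¹) (u / y) := by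
    funext u; exact gk_eq hy u
  rw [h, integral_const_mul, Measure.integral_comp_div (fun v : ℝ => (1 + v ^ 2)⁻¹) y,
    integral_univ_inv_one_add_sq, abs_of_pos hy, smul_eq_mul]
  field_simp

lemma gk_cont {y : ℝ} (hy : 0 < y) : Continuous (gk y) := by
  unfold gk
  refine Continuous.inv₀ (by fun_prop) fun u => ?_
  positivity

lemma hasSum_gk {y : ℝ} (hy : 0 < y) {M : ℕ} (hM : 1 ≤ M) :
    HasSum (fun c : ℤ => ∫ x in (0 : ℝ)..1, gk y (M * x + c)) (π / y) := by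
  have hM0 : (M : ℝ) ≠ 0 := by positivity
  have h1 : ∀ c : ℤ, ∫ x in (0 : ℝ)..1, gk y (M * x + c) =
      (M : ℝ)⁻¹ * ∑ j ∈ Finset.range M, ∫ u in ((j : ℝ) + c)..((j : ℝ) + c + 1), gk y u := by
    intro c
    rw [intervalIntegral.integral_comp_mul_add (gk y) hM0, smul_eq_mul]
    congr 1
    have h2 := intervalIntegral.sum_integral_adjacent_intervals (f := gk y) (μ := volume)
      (a := fun j : ℕ => (j : ℝ) + c) (n := M)
      (fun j _ => (gk_cont hy).intervalIntegrable _ _)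
    simp only [Nat.cast_zero, Nat.cast_add, Nat.cast_one] at h2
    rw [mul_zero, mul_one, ← h2]
    refine Finset.sum_congr rfl fun j _ => ?_
    congr 1
    ring
  have h3 : HasSum (fun c : ℤ => ∑ j ∈ Finset.range M,
      ∫ u in ((j : ℝ) + c)..((j : ℝ) + c + 1), gk y u) (∑ j ∈ Finset.range M, π / y) := by
    refine hasSum_sum fun j _ => ?_
    rw [← gk_integral hy]
    exact (gk_integrable hy).hasSum_intervalIntegral (j : ℝ)
  have h4 := h3.mul_left (M : ℝ)⁻¹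
  have h5 : (M : ℝ)⁻¹ * ∑ j ∈ Finset.range M, π / y = π / y := by
    rw [Finset.sum_const, Finset.card_range, nsmul_eq_mul, ← mul_assoc, inv_mul_cancel₀ hM0,
      one_mul]
  rw [h5] at h4
  simpa only [h1] using h4

lemma key {y : ℝ} (hy : 0 < y) {M : ℕ} (hM : 1 ≤ M) {B : ℝ} (hB : 0 ≤ B) (F : ℝ → ℤ → ℝ)
    (h0 : ∀ x c, 0 ≤ F x c) (h1 : ∀ x c, F x c ≤ B * gk y (M * x + c)) :
    ∫⁻ x in Ioc (0 : ℝ) 1, ENNReal.ofReal (∑' c, F x c) ≤ ENNReal.ofReal (B * (π / y)) := by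
  have hc : ∀ c : ℤ, Continuous fun x : ℝ => B * gk y (M * x + c) := fun c =>
    continuous_const.mul ((gk_cont hy).comp (by fun_prop))
  have hn : ∀ (c : ℤ) (x : ℝ), 0 ≤ B * gk y (M * x + c) := fun c x =>
    mul_nonneg hB (gk_nonneg _ _)
  have hs := (hasSum_gk hy hM).mul_left B
  have hi : ∀ c : ℤ, ∫⁻ x in Ioc (0 : ℝ) 1, ENNReal.ofReal (B * gk y (M * x + c)) =
      ENNReal.ofReal (B * ∫ x in (0 : ℝ)..1, gk y (M * x + c)) := by
    intro c
    rw [← intervalIntegral.integral_const_mul, intervalIntegral.integral_of_le zero_le_one,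
      ofReal_integral_eq_lintegral_ofReal]
    · exact ((hc c).intervalIntegrable 0 1).1
    · exact Eventually.of_forall (hn c)
  calc ∫⁻ x in Ioc (0 : ℝ) 1, ENNReal.ofReal (∑' c, F x c)
      ≤ ∫⁻ x in Ioc (0 : ℝ) 1, ∑' c : ℤ, ENNReal.ofReal (B * gk y (M * x + c)) := by
        refine lintegral_mono fun x => ?_
        by_cases hsum : Summable (F x)
        · rw [ENNReal.ofReal_tsum_of_nonneg (h0 x) hsum]
          exact ENNReal.tsum_le_tsum fun c => ENNReal.ofReal_le_ofReal (h1 x c)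
        · rw [tsum_eq_zero_of_not_summable hsum]
          simp
    _ = ∑' c : ℤ, ∫⁻ x in Ioc (0 : ℝ) 1, ENNReal.ofReal (B * gk y (M * x + c)) :=
        lintegral_tsum fun c => (hc c).measurable.ennreal_ofReal.aemeasurable
    _ = ∑' c : ℤ, ENNReal.ofReal (B * ∫ x in (0 : ℝ)..1, gk y (M * x + c)) := by
        simp only [hi]
    _ = ENNReal.ofReal (B * (π / y)) := by
        rw [← ENNReal.ofReal_tsum_of_nonneg _ hs.summable, hs.tsum_eq]
        intro c
        exact mul_nonneg hB (intervalIntegral.integral_nonneg zero_le_one fun x _ => gk_nonneg _ _)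

lemma norm_sq_ge {M : ℝ} (hM : 1 ≤ M) (x c : ℝ) {y : ℝ} (hy : 0 < y) :
    (M * x + c) ^ 2 + y ^ 2 ≤ ‖(M * (x + y * I) + c : ℂ)‖ ^ 2 := by
  have h : (M * (x + y * I) + c : ℂ) = ((M * x + c : ℝ) : ℂ) + ((M * y : ℝ) : ℂ) * I := by
    push_cast; ring
  rw [h, Complex.sq_norm, Complex.normSq_add_mul_I]
  have h2 : y ≤ M * y := by nlinarith
  have h3 : y ^ 2 ≤ (M * y) ^ 2 := pow_le_pow_left₀ hy.le h2 2
  linarith

lemma small {k : ℕ} (hk : 6 ≤ k) {y r a C u : ℝ} (hy : 0 < y) (hr : 0 ≤ r) (hC : 0 ≤ C)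
    (hu : u ^ 2 + y ^ 2 ≤ r ^ 2) (ha : a * y ^ k ≤ C * (r ^ 2 / y) ^ (1 / 4 : ℝ)) :
    1 / r ^ k * a ≤ C * y ^ (9 / 4 - 2 * k : ℝ) * gk y u := by
  have hyr : y ≤ r := by
    have : y ^ 2 ≤ r ^ 2 := by nlinarith [sq_nonneg u]
    exact (pow_le_pow_iff_left₀ hy.le hr two_ne_zero).1 this
  have hr0 : 0 < r := hy.trans_le hyr
  have hk' : (6 : ℝ) ≤ k := by exact_mod_cast hk
  have e1 : (r ^ 2 / y) ^ (1 / 4 : ℝ) = r ^ (1 / 2 : ℝ) * y ^ (-(1 / 4) : ℝ) := by
    rw [Real.div_rpow (by positivity) hy.le, ← Real.rpow_natCast, ← Real.rpow_mul hr,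
      Real.rpow_neg hy.le, div_eq_mul_inv]
    norm_num
  have e2 : a ≤ C * (r ^ (1 / 2 : ℝ) * y ^ (-(1 / 4) : ℝ)) * y ^ (-(k : ℝ)) := by
    rw [Real.rpow_neg hy.le (k : ℝ), Real.rpow_natCast, ← div_eq_mul_inv,
      le_div_iff₀ (by positivity), ← e1]
    exact ha
  have e3 : 1 / r ^ k * r ^ (1 / 2 : ℝ) = r ^ (5 / 2 - k : ℝ) * (r ^ 2)⁻¹ := by
    rw [one_div, ← Real.rpow_natCast r k, ← Real.rpow_neg hr, ← Real.rpow_add hr0,
      ← Real.rpow_natCast r 2, ← Real.rpow_neg hr, ← Real.rpow_add hr0]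
    congr 1
    push_cast
    ring
  have e4 : r ^ (5 / 2 - k : ℝ) ≤ y ^ (5 / 2 - k : ℝ) :=
    Real.rpow_le_rpow_of_nonpos hy hyr (by linarith)
  have e5 : (r ^ 2)⁻¹ ≤ gk y u := by
    unfold gk
    exact inv_anti₀ (by positivity) hu
  have e6 : y ^ (9 / 4 - 2 * k : ℝ) =
      y ^ (5 / 2 - k : ℝ) * (y ^ (-(1 / 4) : ℝ) * y ^ (-(k : ℝ))) := by
    rw [← Real.rpow_add hy, ← Real.rpow_add hy]
    congr 1
    ring
  calc 1 / r ^ k * a
      ≤ 1 / r ^ k * (C * (r ^ (1 / 2 : ℝ) * y ^ (-(1 / 4) : ℝ)) * y ^ (-(k : ℝ))) :=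
        mul_le_mul_of_nonneg_left e2 (by positivity)
    _ = C * (y ^ (-(1 / 4) : ℝ) * y ^ (-(k : ℝ))) * (1 / r ^ k * r ^ (1 / 2 : ℝ)) := by ring
    _ ≤ C * (y ^ (-(1 / 4) : ℝ) * y ^ (-(k : ℝ))) * (y ^ (5 / 2 - k : ℝ) * gk y u) := by
        rw [e3]
        exact mul_le_mul_of_nonneg_left
          (mul_le_mul e4 e5 (by positivity) (by positivity)) (by positivity)
    _ = C * y ^ (9 / 4 - 2 * k : ℝ) * gk y u := by rw [e6]; ring

lemma large {k : ℕ} (hk : 6 ≤ k) {y r u : ℝ} (hy : 1 ≤ y) (hr : 0 ≤ r)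
    (hu : u ^ 2 + y ^ 2 ≤ r ^ 2) : 1 / r ^ k ≤ gk y u := by
  have hy0 : 0 < y := by linarith
  have hyr : y ≤ r := by
    have : y ^ 2 ≤ r ^ 2 := by nlinarith [sq_nonneg u]
    exact (pow_le_pow_iff_left₀ hy0.le hr two_ne_zero).1 this
  have h1 : r ^ 2 ≤ r ^ k := pow_le_pow_right₀ (hy.trans hyr) (by omega)
  unfold gk
  rw [one_div]
  exact inv_anti₀ (by positivity) (hu.trans h1)

lemma decay (hS : RowSER) (hJ : RowJH) (w : ℤ) (f : CuspForm 𝒮ℒ w) :
    ∃ K : ℝ, 0 ≤ K ∧ ∀ z : ℂ, 1 ≤ z.im → ‖fC f z‖ ≤ K * Real.exp (-z.im) := by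
  obtain ⟨hsm, h0, -, -⟩ := hS.cf w f
  have hs := hsm (Real.exp (-1)) (Real.exp_pos _).le (by
    rw [Real.exp_lt_one_iff]; norm_num)
  refine ⟨∑' n, ‖aF f n‖ * Real.exp (-1) ^ n, tsum_nonneg fun n => by positivity, fun z hz => ?_⟩
  rw [← tsum_mul_right]
  refine tsum_of_norm_bounded (hs.mul_right _).hasSum fun n => ?_
  rcases Nat.eq_zero_or_pos n with rfl | hn
  · simp [h0]
  · rw [norm_mul, hJ.norm, mul_assoc ‖aF f n‖]
    refine mul_le_mul_of_nonneg_left ?_ (norm_nonneg (aF f n))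
    rw [← Real.exp_nat_mul, ← Real.exp_add, Real.exp_le_exp]
    have him : ((n : ℂ) * z / ((1 : ℕ) : ℂ)).im = n * z.im := by simp
    rw [him]
    have hn' : (1 : ℝ) ≤ n := by exact_mod_cast hn
    have h1 : (n : ℝ) ≤ n * z.im := by nlinarith
    have h2 : z.im ≤ n * z.im := by nlinarith
    have h3 : 0 ≤ (π - 1) * (n * z.im) :=
      mul_nonneg (by linarith [Real.two_le_pi]) (by linarith)
    nlinarith

theorem rowBND : OfBND := by
  intro hS hJ _ _ hD N k t f hA ht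
  obtain ⟨hk, -, hN⟩ := hA
  have hM : 1 ≤ N * t := Nat.mul_pos (by omega) ht
  have hM' : (1 : ℝ) ≤ ((N * t : ℕ) : ℝ) := by exact_mod_cast hM
  obtain ⟨C₀, hC₀⟩ := hD k f (1 / 4) (by norm_num)
  obtain ⟨K, hK, hdec⟩ := decay hS hJ _ f
  refine ⟨(|C₀| + K) * π, by positivity, fun y hy => ?_⟩
  have him : ∀ x : ℝ, ((x : ℂ) + y * I).im = y := fun x => by simp
  have hsq : ∀ (x : ℝ) (c : ℤ), (((N * t : ℕ) : ℝ) * x + c) ^ 2 + y ^ 2 ≤
      ‖(N * t * (x + y * I) + c : ℂ)‖ ^ 2 := by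
    intro x c
    have := norm_sq_ge hM' x c hy
    push_cast at this ⊢
    exact this
  have hmaj : ∀ x : ℝ, maj N k t (x + y * I) * ‖fC f (x + y * I)‖ =
      ∑' c : ℤ, 1 / ‖(N * t * (x + y * I) + c : ℂ)‖ ^ k * ‖fC f (x + y * I)‖ := by
    intro x
    rw [tsum_mul_right]
    rfl
  simp only [hmaj]
  split_ifs with h1
  · refine (key hy hM (B := |C₀| * y ^ (9 / 4 - 2 * k : ℝ)) (by positivity) _
      (fun x c => by positivity) fun x c => ?_).trans (ENNReal.ofReal_le_ofReal ?_)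
    · refine small hk hy (norm_nonneg _) (abs_nonneg _) (hsq x c) ?_
      have h2 := hC₀ c (N * t : ℕ) (x + y * I) (by rw [him]; exact hy) (by
        intro h
        have := congrArg Prod.snd h
        simp only at this
        omega)
      rw [him] at h2
      push_cast at h2
      exact h2.trans (mul_le_mul_of_nonneg_right (le_abs_self _) (by positivity))
    · have e : y ^ (9 / 4 - 2 * k : ℝ) = y ^ (5 / 4 - 2 * k : ℝ) * y := by
        rw [← Real.rpow_add_one hy.ne']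
        congr 1
        ring
      have e2 : |C₀| * (y ^ (5 / 4 - 2 * k : ℝ) * y) * (π / y) =
          |C₀| * π * y ^ (5 / 4 - 2 * k : ℝ) := by
        field_simp
      rw [e, e2]
      have h3 : 0 ≤ K * π * y ^ (5 / 4 - 2 * k : ℝ) := by positivity
      nlinarith
  · have h1' : 1 ≤ y := (not_le.1 h1).le
    refine (key hy hM (B := K * Real.exp (-y)) (by positivity) _
      (fun x c => by positivity) fun x c => ?_).trans (ENNReal.ofReal_le_ofReal ?_)
    · have h2 := hdec (x + y * I) (by rw [him]; exact h1')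
      rw [him] at h2
      rw [mul_comm (K * Real.exp (-y))]
      exact mul_le_mul (large hk h1' (norm_nonneg _) (hsq x c)) h2 (norm_nonneg _) (gk_nonneg _ _)
    · have h3 : π / y ≤ π := div_le_self Real.pi_pos.le h1'
      have h4 : 0 ≤ |C₀| * π * Real.exp (-y) := by positivity
      have h5 : K * Real.exp (-y) * (π / y) ≤ K * Real.exp (-y) * π :=
        mul_le_mul_of_nonneg_left h3 (by positivity)
      nlinarith

end

end Pool.Agent.MP_5f72fe_nt.H58
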